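import Mathlib

/-!
# Zeros of a gcd recursion and prime values of polynomials

`S(1) = s`, `S(n) = |S(n-1) - gcd(S(n-1), P(n))|`. For every integer `c ≥ 2` the polynomial
`Q = x - c` is irreducible and takes prime values at infinitely many arguments, but no `s` is good
for any product `P` of irreducible polynomials one of which is `x - c`: the recursion is reset to `0`
at `n = c`, whatever `s` is, and `Q(c + 1) = 1` is not prime.
-/

namespace Pool.Agent.Results.MP_e68b86_nt.RootCounterexample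

open Polynomial

/-- the sequence `S_s` of the polynomial `P`; `seq P s k` is `S_s(k + 1)` -/
def seq (P : ℤ[X]) (s : ℕ) : ℕ → ℤ
  | 0 => s
  | k + 1 => |seq P s k - Int.gcd (seq P s k) (P.eval ((k : ℤ) + 2))|

/-- `s` is good for the family `Q`: the sequence of `P = ∏ Q j` has infinitely many zeros `n`, and at
every zero `n ≥ 2` all the numbers `Q j (n + 1)` are (positive) primes -/
def Good {m : ℕ} (Q : Fin m → ℤ[X]) (s : ℕ) : Prop :=
  {n : ℕ | 1 ≤ n ∧ seq (∏ j, Q j) s (n - 1) = 0}.Infinite ∧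
    ∀ n : ℕ, 2 ≤ n → seq (∏ j, Q j) s (n - 1) = 0 →
      ∀ j, ∃ p : ℕ, p.Prime ∧ (Q j).eval ((n : ℤ) + 1) = p

/-- the hypotheses of the question: irreducible polynomials which are simultaneously prime at
infinitely many positive arguments -/
def Admissible {m : ℕ} (Q : Fin m → ℤ[X]) : Prop :=
  (∀ j, Irreducible (Q j) ∧ 0 < (Q j).natDegree) ∧
    {k : ℕ | 1 ≤ k ∧ ∀ j, ∃ p : ℕ, p.Prime ∧ (Q j).eval (k : ℤ) = p}.Infinite

theorem result :
    -- no positive integer `s` is good for a family which contains `x - c` for some `c ≥ 2`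
    (∀ (m : ℕ) (Q : Fin m → ℤ[X]) (j : Fin m) (c : ℕ), 2 ≤ c → Q j = X - C (c : ℤ) →
      ∀ s : ℕ, ¬ Good Q s) ∧
    -- such families are admissible, so the assertion of the question is false
    (∀ c : ℕ, 2 ≤ c → Admissible (fun _ : Fin 1 => (X - C (c : ℤ) : ℤ[X]))) ∧
    ¬ (∀ (m : ℕ) (Q : Fin m → ℤ[X]), 1 ≤ m → Admissible Q →
      {s : ℕ | 1 ≤ s ∧ Good Q s}.Infinite) := by
  have h1 : ∀ (m : ℕ) (Q : Fin m → ℤ[X]) (j : Fin m) (c : ℕ), 2 ≤ c → Q j = X - C (c : ℤ) →
      ∀ s : ℕ, ¬ Good Q s := by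
    intro m Q j c hc hQ s ⟨_, hg⟩
    obtain ⟨k, rfl⟩ : ∃ k, c = k + 2 := ⟨c - 2, by omega⟩
    have hz : seq (∏ j, Q j) s (k + 2 - 1) = 0 := by
      show seq (∏ j, Q j) s (k + 1) = 0
      have hP : (∏ j, Q j).eval ((k : ℤ) + 2) = 0 := by
        rw [eval_prod]
        apply Finset.prod_eq_zero (Finset.mem_univ j)
        rw [hQ]
        simp
      have hnn : ∀ i, 0 ≤ seq (∏ j, Q j) s i := by
        intro i
        cases i with
        | zero => exact Int.natCast_nonneg s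
        | succ i => exact abs_nonneg _
      show |seq (∏ j, Q j) s k - Int.gcd (seq (∏ j, Q j) s k)
        ((∏ j, Q j).eval ((k : ℤ) + 2))| = 0
      rw [hP, Int.gcd_zero_right, Int.natCast_natAbs, abs_of_nonneg (hnn k), sub_self, abs_zero]
    obtain ⟨p, hp, he⟩ := hg (k + 2) hc hz j
    rw [hQ] at he
    have : (p : ℤ) = 1 := by
      rw [← he]
      simp
    exact hp.one_lt.ne' (by exact_mod_cast this)
  have h2 : ∀ c : ℕ, 2 ≤ c → Admissible (fun _ : Fin 1 => (X - C (c : ℤ) : ℤ[X])) := by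
    intro c hc
    refine ⟨fun j => ⟨Polynomial.irreducible_X_sub_C (c : ℤ), ?_⟩, ?_⟩
    · rw [natDegree_X_sub_C]
      exact one_pos
    · refine Set.Infinite.mono (s := (fun p : ℕ => p + c) '' {p : ℕ | p.Prime}) ?_
        (Nat.infinite_setOfPred_prime.image (fun a _ b _ h => by simpa using h))
      rintro _ ⟨p, hp, rfl⟩
      refine ⟨?_, fun _ => ⟨p, hp, ?_⟩⟩
      · show 1 ≤ p + c
        omega
      · simp
  refine ⟨h1, h2, fun h => ?_⟩
  refine (h 1 (fun _ => X - C ((2 : ℕ) : ℤ)) le_rfl (h2 2 le_rfl)) ?_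
  have : {s : ℕ | 1 ≤ s ∧ Good (fun _ : Fin 1 => (X - C ((2 : ℕ) : ℤ) : ℤ[X])) s} = ∅ := by
    rw [Set.eq_empty_iff_forall_notMem]
    rintro s ⟨_, hs⟩
    exact h1 1 _ 0 2 le_rfl rfl s hs
  rw [this]
  exact Set.finite_empty

end Pool.Agent.Results.MP_e68b86_nt.RootCounterexample
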